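import Mathlib

set_option autoImplicit false

namespace Pool.Agent.Helper259.HtExt

open NumberField Height Module

section inf

variable {K L : Type*} [Field K] [NumberField K] [Field L] [NumberField L] [Algebra K L]

lemma prod_infinitePlace_pow_mult (K : Type*) [Field K] [NumberField K] (g : InfinitePlace K → ℝ) :
    ∏ w : InfinitePlace K, g w ^ w.mult = ∏ φ : K →+* ℂ, g (InfinitePlace.mk φ) := by
  classical
  rw [← Finset.prod_fiberwise Finset.univ (fun φ : K →+* ℂ => InfinitePlace.mk φ)
    (fun φ => g (InfinitePlace.mk φ))]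
  refine Finset.prod_congr rfl fun w _ => ?_
  have : ∀ φ ∈ Finset.univ.filter (fun φ : K →+* ℂ => InfinitePlace.mk φ = w),
      g (InfinitePlace.mk φ) = g w := by
    intro φ hφ
    rw [(Finset.mem_filter.mp hφ).2]
  rw [Finset.prod_congr rfl this, Finset.prod_const, InfinitePlace.card_filter_mk_eq]

lemma card_ext (φ : K →+* ℂ) :
    Nat.card {ψ : L →+* ℂ // ψ.comp (algebraMap K L) = φ} = finrank K L := by
  let _ : Algebra K ℂ := φ.toAlgebra
  have e : {ψ : L →+* ℂ // ψ.comp (algebraMap K L) = φ} ≃ (L →ₐ[K] ℂ) :=
    { toFun := fun ψ => { ψ.1 with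
        commutes' := fun r => by
          have := congrArg (fun f => f r) ψ.2
          exact this }
      invFun := fun ψ => ⟨ψ.toRingHom, by
        ext r
        exact ψ.commutes r⟩
      left_inv := fun ψ => rfl
      right_inv := fun ψ => rfl }
  rw [Nat.card_congr e, Nat.card_eq_fintype_card]
  exact AlgHom.card K L ℂ

lemma prod_embeddings (g : (K →+* ℂ) → ℝ) :
    ∏ ψ : L →+* ℂ, g (ψ.comp (algebraMap K L)) = (∏ φ : K →+* ℂ, g φ) ^ finrank K L := by
  classical
  rw [← Finset.prod_fiberwise Finset.univ (fun ψ : L →+* ℂ => ψ.comp (algebraMap K L))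
    (fun ψ => g (ψ.comp (algebraMap K L))), ← Finset.prod_pow]
  refine Finset.prod_congr rfl fun φ _ => ?_
  have : ∀ ψ ∈ Finset.univ.filter (fun ψ : L →+* ℂ => ψ.comp (algebraMap K L) = φ),
      g (ψ.comp (algebraMap K L)) = g φ := by
    intro ψ hψ
    rw [(Finset.mem_filter.mp hψ).2]
  rw [Finset.prod_congr rfl this, Finset.prod_const, ← card_ext (L := L) φ]
  congr 1
  rw [Nat.card_eq_fintype_card, Fintype.card_subtype]

lemma prod_inf_ext (g : InfinitePlace K → ℝ) :
    ∏ w : InfinitePlace L, g (w.comap (algebraMap K L)) ^ w.mult =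
      (∏ v : InfinitePlace K, g v ^ v.mult) ^ finrank K L := by
  rw [prod_infinitePlace_pow_mult L (fun w => g (w.comap (algebraMap K L))),
    prod_infinitePlace_pow_mult K g, ← prod_embeddings (L := L)]
  refine Finset.prod_congr rfl fun ψ _ => ?_
  rw [InfinitePlace.comap_mk]

end inf

section fin

variable {K L : Type*} [Field K] [NumberField K] [Field L] [NumberField L] [Algebra K L]
variable {ι : Type*} [Finite ι]

lemma finrank_int : finrank (𝓞 K) (𝓞 L) = finrank K L :=
  (IsFractionRing.finrank_eq (𝓞 K) K (𝓞 L) L).symm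

lemma finprod_fin_ext_int (x : ι → 𝓞 K) (hx : x ≠ 0) :
    ∏ᶠ w : FinitePlace L, ⨆ i, w (algebraMap K L (x i)) =
      (∏ᶠ v : FinitePlace K, ⨆ i, v (x i)) ^ finrank K L := by
  have h1 := absNorm_mul_finprod_finitePlace_eq_one hx
  have hx' : (fun i => algebraMap (𝓞 K) (𝓞 L) (x i)) ≠ 0 := by
    intro h
    apply hx
    funext i
    have := congrFun h i
    simp only [Pi.zero_apply] at this
    exact (FaithfulSMul.algebraMap_eq_zero_iff (𝓞 K) (𝓞 L)).mp this
  have h2 := absNorm_mul_finprod_finitePlace_eq_one hx'
  have h3 : Ideal.span (Set.range fun i => algebraMap (𝓞 K) (𝓞 L) (x i)) =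
      (Ideal.span (Set.range x)).map (algebraMap (𝓞 K) (𝓞 L)) := by
    rw [Ideal.map_span, ← Set.range_comp]
    rfl
  rw [h3, Ideal.absNorm_algebraMap, finrank_int (K := K) (L := L)] at h2
  have h4 : ∀ (w : FinitePlace L) (i : ι),
      w (algebraMap K L (x i)) = w ((algebraMap (𝓞 K) (𝓞 L) (x i) : 𝓞 L) : L) := by
    intro w i
    rfl
  simp only [h4]
  push_cast at h2
  have h5 : ((Ideal.span (Set.range x)).absNorm : ℝ) ≠ 0 := by
    intro h
    rw [h, zero_mul] at h1
    exact zero_ne_one h1
  have h6 := congrArg (fun r : ℝ => r ^ finrank K L) h1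
  simp only [mul_pow, one_pow] at h6
  exact mul_left_cancel₀ (pow_ne_zero (finrank K L) h5) (h2.trans h6.symm)

end fin

section all

variable {K L : Type*} [Field K] [NumberField K] [Field L] [NumberField L] [Algebra K L]
variable {ι : Type*} [Finite ι]

lemma mulHeight_ext_int (x : ι → 𝓞 K) (hx : x ≠ 0) :
    mulHeight (fun i => algebraMap K L (x i)) = mulHeight (fun i => (x i : K)) ^ finrank K L := by
  have hxK : (fun i => (x i : K)) ≠ 0 := by
    intro h
    apply hx
    funext i
    have := congrFun h i
    simpa using this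
  have hxL : (fun i => algebraMap K L (x i)) ≠ 0 := by
    intro h
    apply hxK
    funext i
    have := congrFun h i
    simpa using this
  rw [NumberField.mulHeight_eq hxK, NumberField.mulHeight_eq hxL, mul_pow,
    finprod_fin_ext_int x hx, ← prod_inf_ext (L := L) (fun v => ⨆ i, v (x i : K))]
  rfl

/-- behaviour of the relative height under field extension -/
theorem mulHeight_ext (x : ι → K) :
    mulHeight (fun i => algebraMap K L (x i)) = mulHeight x ^ finrank K L := by
  by_cases hx : x = 0
  · subst hx
    have : (fun i : ι => algebraMap K L ((0 : ι → K) i)) = 0 := by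
      funext i; simp
    rw [this, mulHeight_zero, mulHeight_zero, one_pow]
  · obtain ⟨⟨c, hc⟩, hcx⟩ := IsLocalization.exist_integer_multiples_of_finite
      (nonZeroDivisors (𝓞 K)) x
    choose y hy using hcx
    have hc0 : (c : K) ≠ 0 := by
      have := nonZeroDivisors.ne_zero hc
      simpa using this
    have hy' : ∀ i, (y i : K) = (c : K) * x i := by
      intro i
      have := hy i
      rw [Algebra.smul_def] at this
      exact this
    have hy0 : y ≠ 0 := by
      intro h
      apply hx
      funext i
      have := hy' i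
      rw [h] at this
      simp only [Pi.zero_apply] at this
      have h2 : (c : K) * x i = 0 := by
        rw [← this]; simp
      exact (mul_eq_zero.mp h2).resolve_left hc0
    have key := mulHeight_ext_int (L := L) y hy0
    have e1 : (fun i => (y i : K)) = (c : K) • x := by
      funext i; rw [hy' i]; rfl
    have e2 : (fun i => algebraMap K L (y i)) = (algebraMap K L c) • (fun i => algebraMap K L (x i)) := by
      funext i
      rw [hy' i, map_mul]; rfl
    have hcL : algebraMap K L c ≠ 0 := by
      rw [Ne, FaithfulSMul.algebraMap_eq_zero_iff]; exact hc0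
    rw [e1, e2, mulHeight_smul_eq_mulHeight _ hc0, mulHeight_smul_eq_mulHeight _ hcL] at key
    exact key

theorem logHeight_ext (x : ι → K) :
    logHeight (fun i => algebraMap K L (x i)) = finrank K L * logHeight x := by
  rw [logHeight_eq_log_mulHeight, mulHeight_ext, Real.log_pow, ← logHeight_eq_log_mulHeight]

end all

end Pool.Agent.Helper259.HtExt
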